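import Pool.Agent.Helper37_BSig.Stmts

/-!
# SchemeStmt: the schemes `BΣ₁`, `IΣ₀` hold and `IΣ₁` fails in the model
-/

namespace Pool.Agent.BSig.H82

open Filter Pool.Agent.BSig

/-- Countable saturation for bounded internal predicates. -/
theorem sat1 (R : ℕ → MM → Prop) (hR : ∀ k, Int1 (R k)) (hdec : ∀ k x, R (k + 1) x → R k x)
    (b : MM) (hb : ∀ k x, R k x → x ≤ b) (hne : ∀ k, ∃ x, R k x) : ∃ x, ∀ k, R k x := by
  choose Rn hRn using hR
  have hdec' : ∀ {k l x}, k ≤ l → R l x → R k x := by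
    intro k l x h
    induction h with
    | refl => exact id
    | step _ ih => exact fun hp => ih (hdec _ _ hp)
  obtain ⟨x, ν, -, -, -, hx⟩ := saturation
    (P := fun N n x => x ≤ rep b n ∧ ∀ k ≤ N, Rn k n x)
    (fun N n x h => ⟨h.1, fun k hk => h.2 k (hk.trans (Nat.le_succ N))⟩)
    (fun N => by
      obtain ⟨y, hy⟩ := hne N
      have hyb := hb N y hy
      obtain ⟨f, hf, rfl⟩ := exists_mk y
      rw [← mk_rep b, mk_le] at hyb
      have h2 : ∀ᶠ n in (UU : Filter ℕ), ∀ k ∈ Finset.range (N + 1), Rn k n (f n) := by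
        rw [Filter.eventually_all_finset]
        intro k hk
        exact (hRn k f hf).1 (hdec' (Nat.lt_succ_iff.1 (Finset.mem_range.1 hk)) hy)
      filter_upwards [hyb, h2] with n h3 h4
      exact ⟨f n, h3, fun k hk => h4 k (Finset.mem_range.2 (Nat.lt_succ_of_le hk))⟩)
  have hxb : Bdd x := bdd_of_le (bdd_rep b) ((hx 0).mono fun n h => h.1)
  refine ⟨mk x hxb, fun k => ?_⟩
  rw [hRn k]
  exact (hx k).mono fun n h => h.2 k le_rfl

theorem isigma0 : ISigma MM 0 := by
  intro P hP h0 hs x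
  have hP' : IsDelta0 P := hP
  have e1 : ∀ v : Fin 1 → MM, ![v 0] = v := by
    intro v; funext i; rw [Subsingleton.elim i 0]; rfl
  have hI : Int1 (fun x => P ![x]) :=
    Int1.of_delta0 (hP'.congr fun v => by rw [e1 v])
  by_contra hx
  obtain ⟨y, hy, hmin⟩ := hI.not.least ⟨x, hx⟩
  by_cases hy0 : y = 0
  · rw [hy0] at hy
    exact hy h0
  · have h1 : (1 : MM) ≤ y := by
      have h2 : (0 : MM) < y := lt_of_le_of_ne (PAExp.zero_le' y) (Ne.symm hy0)
      have h3 := (PAExp.discrete _ _).1 h2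
      rwa [zero_add] at h3
    obtain ⟨z, hz⟩ := PAExp.exists_add 1 y h1
    have hzy : z < y := by
      rw [← hz, add_comm]
      exact (PAExp.discrete _ _).2 le_rfl
    have hPz : P ![z] := by
      by_contra h
      exact absurd hzy (not_lt.2 (hmin z h))
    have := hs z hPz
    rw [add_comm, hz] at this
    exact hy this

theorem bsigma1 : BSigma MM 1 := by
  intro P hP a h
  obtain ⟨Q, hQ, hPQ, hmono⟩ := (Sig1.of_isSigma hP).mono
  by_contra hc
  push Not at hc
  have e3 : ∀ (w x y : MM), (Fin.cons w ![x, y] : Fin 3 → MM) = ![w, x, y] := fun _ _ _ => rfl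
  obtain ⟨x, hx⟩ := sat1 (fun k x => x < a ∧ ∀ y, y ≤ aa k → ¬ Q (Fin.cons (aa k) ![x, y]))
    (fun k => by
      refine Int1.of_delta0 ?_
      refine (IsDelta0.lt (IsTerm.var 0) (IsTerm.param a)).and ?_
      refine IsDelta0.all (IsTerm.param (aa k))
        (Q := fun y v => ¬ Q (Fin.cons (aa k) ![v 0, y])) ?_
      refine ((hQ.subst (F := ![fun _ => aa k, fun w => w 1, fun w => w 0]) ?_).congr
        fun v => ?_).not
      · intro i
        fin_cases i
        · exact IsTerm.param _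
        · exact IsTerm.var 1
        · exact IsTerm.var 0
      · have : (Fin.cons (aa k) ![Fin.tail v 0, v 0] : Fin 3 → MM) =
            fun i => (![fun _ => aa k, fun w => w 1, fun w => w 0] :
              Fin 3 → (Fin 2 → MM) → MM) i v := by
          funext i; fin_cases i <;> rfl
        rw [this])
    (fun k x hk => ⟨hk.1, fun y hy hq => hk.2 y (hy.trans (aa_lt_succ k).le)
      (hmono _ _ _ (aa_lt_succ k).le hq)⟩)
    a (fun k x hk => hk.1.le)
    (fun k => by
      obtain ⟨x, hx, hy⟩ := hc (aa k + 1)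
      refine ⟨x, hx, fun y hyk hq => ?_⟩
      refine hy y ((PAExp.discrete _ _).2 (PAExp.add_le_add' _ _ 1 hyk)) ?_
      rw [hPQ]
      exact ⟨_, hq⟩)
  obtain ⟨y, hy⟩ := h x (hx 0).1
  rw [hPQ] at hy
  obtain ⟨w, hw⟩ := hy
  obtain ⟨k, hk⟩ := exists_lt_aa (max y w)
  exact (hx k).2 y ((le_max_left y w).trans hk.le)
    (hmono _ _ _ ((le_max_right y w).trans hk.le) hw)

theorem schemeStmt_proof (hO : OmegaBasics) : SchemeStmt := by
  refine ⟨bsigma1, fun h => ?_, isigma0⟩
  obtain ⟨-, -, -, ⟨⟨-, hne, -, hsucc⟩, hsig⟩, -⟩ := hO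
  apply hne
  rw [Set.eq_univ_iff_forall]
  intro x
  exact h (fun v => v 0 ∈ omega MM) hsig ⟨0, by simp⟩ (fun y hy => hsucc y hy) x

end Pool.Agent.BSig.H82
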